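import Pool.Agent.J6H78.EG.Final

/-!
# `k`-equilateral `n`-gons spanning `E ^ (2k - 1)` exist for all `k ≥ 2` and `n > 2k + 1`

This answers Q1 positively.

* For even `n` the orbit of a cyclic group of order `n` acting with `k - 1` rotations and one
  reflection works.
* For odd `n` and `k ≥ 3` we start from the cyclically symmetric `n`-gon in `E ^ (2k - 2)` with the
  frequencies `1, …, k - 2, k`.  The framework formed by its steps `1, …, k` has no self-stress
  (apart from those which see the constants `c_j`): a stress of frequency `2 x ≠ 0` gives a
  trigonometric polynomial of degree at most `k` which takes one value at the points `± (x - h)`,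
  `h ∈ {0, ± 1, …, ± (k - 2), ± k}`, and there are at least `2 k + 1` such points.  Hence the
  polygon can be deformed by the implicit function theorem, so that the height in a new direction
  is any small multiple of a given function.
* For `k = 2` there are polygons in the face-centred cubic lattice with angles of 60 degrees.
-/

namespace Pool.Agent.Results.MP_fb0157_co.OddDimensions

/-- An `n`-gon in `E ^ d` is a cyclically ordered tuple `x : ZMod n → E ^ d`.
It is `k`-equilateral if for each `j = 1, …, k` the distance between `x i` and `x (i + j)`
is the same number `c j` for every `i`. -/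
def IsKEquilateral (k : ℕ) {n d : ℕ} (x : ZMod n → EuclideanSpace ℝ (Fin d)) : Prop :=
  ∃ c : ℕ → ℝ, ∀ j : ℕ, 1 ≤ j → j ≤ k → ∀ i : ZMod n, dist (x i) (x (i + (j : ZMod n))) = c j

/-- The `n`-gon `x` in `E ^ d` spans `E ^ d`: the affine hull of its vertices is the whole
space (has dimension exactly `d`). -/
def Spans {n d : ℕ} (x : ZMod n → EuclideanSpace ℝ (Fin d)) : Prop :=
  affineSpan ℝ (Set.range x) = ⊤

/-- Q1, positive answer: for every `k ≥ 2` and every `n > 2 k + 1` there is a `k`-equilateral
`n`-gon that spans `E ^ (2 k - 1)`; for `k ≥ 3` its vertices can be taken pairwise distinct. -/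
theorem result : ∀ k n : ℕ, 2 ≤ k → 2 * k + 1 < n →
    ∃ x : ZMod n → EuclideanSpace ℝ (Fin (2 * k - 1)),
      IsKEquilateral k x ∧ Spans x ∧ (3 ≤ k → Function.Injective x) :=
  fun k n hk hn => Pool.Agent.J6H78.EG.all_cases k n hk hn

end Pool.Agent.Results.MP_fb0157_co.OddDimensions
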